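import Pool.Agent.Lib.MP_d4c0ca_ag.Q.Main

/-! Rationality of the series of topological Euler characteristics of the Quot schemes of points
of the first local Ext sheaf of a torsion free sheaf on a smooth projective threefold. -/

namespace Pool.Agent.Results.MP_d4c0ca_ag.QuotTopRational

open CategoryTheory AlgebraicGeometry Pool.Agent.Lib.MP_d4c0ca_ag

theorem result {S : Type} [CommRing S] [IsDomain S] [Algebra ℂ S] (𝒜 : ℕ → Submodule ℂ S)
    [GradedAlgebra 𝒜] (N : ℕ) (x : Fin (N + 1) → S) (hx : ∀ l, x l ∈ 𝒜 1)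
    (hgen : Algebra.adjoin ℂ (Set.range x) = ⊤) [SmoothOfRelativeDimension 3 (T.St.strMap 𝒜)]
    (F G : T.St.Coh (Proj 𝒜)) (hF : T.St.TorsionFree F.obj) (hG : T.St.IsExt1 F.obj G.obj) :
    (∀ n, ∃ (Z : Scheme.{0}) (s : Z ⟶ Spec (.of ℂ)) (ξ : Q.Family (T.St.strMap 𝒜) G.obj n s),
      Q.Universal ξ) ∧
    ∀ (Z : ℕ → Scheme.{0}) (s : ∀ n, Z n ⟶ Spec (.of ℂ))
      (ξ : ∀ n, Q.Family (T.St.strMap 𝒜) G.obj n (s n)), (∀ n, Q.Universal (ξ n)) →
      (∀ n, CompactSpace (Q.an (s n)) ∧ T.FinType (Q.an (s n))) ∧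
        ∃ P R : Polynomial ℚ, R.coeff 0 ≠ 0 ∧ (R : PowerSeries ℚ) *
          PowerSeries.mk (fun n => (T.eulerChar (Q.an (s n)) : ℚ)) = P :=
  Q.final hx hgen hF hG

end Pool.Agent.Results.MP_d4c0ca_ag.QuotTopRational
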